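import Pool.Agent.Work.OracleCmd_h91.Cmd

/-!
# Interpreters, instance complexity and CD-complexity relative to an oracle (MP_af7a01_lc)
-/

open Classical

namespace Pool.IC

/-- An interpreter `U` for oracle computations with a program `p`, a conditional input `y` and an
input `z`: `run B p y z n` is the output of `U` with oracle `B` if it halts within `n` steps.
Within `n` steps it asks at most `n` oracle questions, of length at most
`|p| + |y| + |z| + n`.  It is optimal: every program `M` has a code `e` and a polynomial `q`
such that, for all oracles, whenever `M(p, y, z)` halts within `n` steps with output `o`,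
`U(e p, y, z)` halts within `q n` steps with the same output (additive overhead in program length,
polynomial overhead in time).  Universal oracle Turing machines are of this kind. -/
structure Interpreter where
  /-- output within `n` steps -/
  run : Set Str → Str → Str → Str → ℕ → Option Str
  /-- the output does not change when more time is allowed -/
  mono : ∀ (B : Set Str) (p y z : Str) (n N : ℕ) (o : Str), n ≤ N →
    run B p y z n = some o → run B p y z N = some o
  /-- at most `n` short questions are asked in `n` steps -/
  asks : ∀ (B : Set Str) (p y z : Str) (n : ℕ), ∃ Q : Finset Str, Q.card ≤ n ∧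
    (∀ s ∈ Q, s.length ≤ p.length + y.length + z.length + n) ∧
    ∀ B' : Set Str, (∀ s ∈ Q, (s ∈ B ↔ s ∈ B')) → run B p y z n = run B' p y z n
  /-- every program is simulated -/
  sim : ∀ M : Cmd, ∃ (e : Str) (q : Polynomial ℕ), ∀ (B : Set Str) (p y z : Str) (n : ℕ) (o : Str),
    out B M p y z n = some o → run B (e ++ p) y z (q.eval n) = some o

/-- The program `p` for `U` is `A`-consistent with time bound `t`: on every input `z` it halts
within `t |z|` steps with output `χ_A(z)` or with the empty output (which means: do not know). -/
def Consistent (U : Interpreter) (B : Set Str) (t : ℕ → ℕ) (A : Set Str) (p : Str) : Prop :=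
  ∀ z : Str, U.run B p [] z (t z.length) = some (chi A z) ∨
    U.run B p [] z (t z.length) = some []

/-- Instance complexity `ic^t(x : A)` relative to the oracle `B`: least length of an
`A`-consistent program with time bound `t` that decides `x`. -/
noncomputable def ic (U : Interpreter) (B : Set Str) (t : ℕ → ℕ) (x : Str) (A : Set Str) :
    ℕ∞ :=
  ⨅ p ∈ {p : Str | Consistent U B t A p ∧ U.run B p [] x (t x.length) = some (chi A x)},
    (p.length : ℕ∞)

/-- CD-complexity `CD^t(x)` relative to the oracle `B`: least length of a program which on every
input `z` halts within `t |z|` steps and accepts only `x`. -/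
noncomputable def CD (U : Interpreter) (B : Set Str) (t : ℕ → ℕ) (x : Str) : ℕ∞ :=
  ⨅ p ∈ {p : Str | ∀ z : Str, U.run B p [] z (t z.length) = some (chi {x} z)},
    (p.length : ℕ∞)

/-- `A` is in the class UP relative to `B`: there is a set `V` of pairs (witness, input),
decidable in polynomial time relative to `B`, with witnesses of polynomial length, at most one
witness for every input, and a witness exactly for the elements of `A`. -/
def InUP (B A : Set Str) : Prop :=
  ∃ (M : Cmd) (q r : Polynomial ℕ) (V : Set (Str × Str)),
    (∀ y z : Str, out B M [] y z (q.eval (y.length + z.length)) = some [decide ((y, z) ∈ V)]) ∧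
    (∀ y z : Str, (y, z) ∈ V → y.length ≤ r.eval z.length) ∧
    (∀ y y' z : Str, (y, z) ∈ V → (y', z) ∈ V → y = y') ∧
    ∀ z : Str, z ∈ A ↔ ∃ y, (y, z) ∈ V

/-- Time bounds which are eventually at most `2 ^ (n / 16)`. -/
def Small (t : ℕ → ℕ) : Prop := ∀ᶠ n in Filter.atTop, t n ≤ 2 ^ (n / 16)

end Pool.IC
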