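import Pool.Agent.Work.OracleCmd_h91.Growth
import Pool.Agent.Work.MP_af7a01_h91.Model

open Filter

namespace Pool.IC

theorem poly_small (q : Polynomial ℕ) : Small (fun n => q.eval n) := by
  obtain ⟨m0, hm0⟩ := eventually_atTop.1 (poly_growth q 2)
  refine eventually_atTop.2 ⟨16 * m0, fun n hn => ?_⟩
  have h1 := hm0 (n / 16 + 1) (by omega)
  have h2 : q.eval n ≤ q.eval (16 * (n / 16 + 1)) := eval_mono q (by omega)
  rw [pow_succ] at h1
  show q.eval n ≤ 2 ^ (n / 16)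
  omega

theorem Small.eventually {t : ℕ → ℕ} (ht : Small t) :
    ∃ m0 : ℕ, ∀ m ≥ m0, t (16 * m) ≤ 2 ^ m := by
  obtain ⟨n0, hn0⟩ := eventually_atTop.1 ht
  refine ⟨n0, fun m hm => ?_⟩
  have h1 := hn0 (16 * m) (by omega)
  rwa [Nat.mul_div_cancel_left m (by norm_num)] at h1

end Pool.IC
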