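import Pool.Agent.Work.OracleCmd_h91.Exec
import Pool.Agent.Work.MP_af7a01_h91.Model

open Classical

namespace Pool.IC

/-- Code of a program as a list of numbers. -/
def Cmd.code : Cmd → List ℕ
  | Cmd.skip => [0]
  | Cmd.push i b => [1, i, if b then 1 else 0]
  | Cmd.pop i => [2, i]
  | Cmd.seq c d => 3 :: (c.code ++ d.code)
  | Cmd.branch i e f t => 4 :: i :: (e.code ++ (f.code ++ t.code))
  | Cmd.ask i y n => 5 :: i :: (y.code ++ n.code)
  | Cmd.loop i c => 6 :: i :: c.code

theorem Cmd.code_inj (c : Cmd) : ∀ (d : Cmd) (l l' : List ℕ), c.code ++ l = d.code ++ l' →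
    c = d ∧ l = l' := by
  induction c with
  | skip =>
    intro d l l' h
    cases d <;> simp [Cmd.code] at h ⊢
    exact h
  | push i b =>
    intro d l l' h
    cases d with
    | push j b' =>
      simp only [Cmd.code, List.cons_append, List.nil_append, List.cons.injEq, true_and] at h
      obtain ⟨rfl, h1, rfl⟩ := h
      refine ⟨?_, rfl⟩
      cases b <;> cases b' <;> simp_all
    | _ => simp [Cmd.code] at h
  | pop i =>
    intro d l l' h
    cases d <;> simp [Cmd.code] at h ⊢
    exact h
  | seq c d hc hd =>
    intro d' l l' h
    cases d' <;> simp [Cmd.code] at h ⊢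
    obtain ⟨h1, h2⟩ := hc _ _ _ h
    obtain ⟨h3, h4⟩ := hd _ _ _ h2
    exact ⟨⟨h1, h3⟩, h4⟩
  | branch i e f t he hf ht =>
    intro d' l l' h
    cases d' <;> simp [Cmd.code] at h ⊢
    obtain ⟨h0, h⟩ := h
    obtain ⟨h1, h2⟩ := he _ _ _ h
    obtain ⟨h3, h4⟩ := hf _ _ _ h2
    obtain ⟨h5, h6⟩ := ht _ _ _ h4
    exact ⟨⟨h0, h1, h3, h5⟩, h6⟩
  | ask i y n hy hn =>
    intro d' l l' h
    cases d' <;> simp [Cmd.code] at h ⊢
    obtain ⟨h0, h⟩ := h
    obtain ⟨h1, h2⟩ := hy _ _ _ h
    obtain ⟨h3, h4⟩ := hn _ _ _ h2
    exact ⟨⟨h0, h1, h3⟩, h4⟩
  | loop i c hc =>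
    intro d' l l' h
    cases d' <;> simp [Cmd.code] at h ⊢
    obtain ⟨h0, h⟩ := h
    obtain ⟨h1, h2⟩ := hc _ _ _ h
    exact ⟨⟨h0, h1⟩, h2⟩

instance : Countable Cmd := by
  refine Function.Injective.countable (f := Cmd.code) ?_
  intro c d h
  exact (Cmd.code_inj c d [] [] (by rw [h])).1

/-- The interpreter given by a program of the model that simulates all programs. -/
noncomputable def ofCmd (U : Cmd)
    (hU : ∀ M : Cmd, ∃ (e : Str) (q : Polynomial ℕ), ∀ (B : Set Str) (p y z : Str) (n : ℕ)
      (o : Str), out B M p y z n = some o → out B U (e ++ p) y z (q.eval n) = some o) :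
    Interpreter where
  run B p y z n := out B U p y z n
  mono _ _ _ _ _ _ _ hN h := out_mono h hN
  asks B p y z n := ⟨queries B U p y z n, card_queries B U p y z n,
    fun _ hs => length_queries hs, fun _ h => out_congr le_rfl h⟩
  sim := hU

/-- The direct interpreter: the program `1^i 0 p` is the `i`-th program of the model with program
input `p`. -/
noncomputable def direct : Interpreter :=
  letI : Encodable Cmd := Encodable.ofCountable Cmd
  { run := fun B p y z n =>
      match (Encodable.decode (p.takeWhile id).length : Option Cmd) with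
      | some M => out B M (p.drop ((p.takeWhile id).length + 1)) y z n
      | none => none
    mono := by
      intro B p y z n N o hN h
      rcases hd : (Encodable.decode (p.takeWhile id).length : Option Cmd) with _ | M
      · simp [hd] at h
      · simp only [hd] at h ⊢
        exact out_mono h hN
    asks := by
      intro B p y z n
      rcases hd : (Encodable.decode (p.takeWhile id).length : Option Cmd) with _ | M
      · exact ⟨∅, by simp, by simp, fun _ _ => rfl⟩
      · refine ⟨queries B M (p.drop ((p.takeWhile id).length + 1)) y z n,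
          card_queries _ _ _ _ _ _, ?_, ?_⟩
        · intro s hs
          have := length_queries hs
          rw [List.length_drop] at this
          omega
        · intro B' h
          exact out_congr le_rfl h
    sim := by
      intro M
      refine ⟨List.replicate (Encodable.encode M) true ++ [false], Polynomial.X, ?_⟩
      intro B p y z n o h
      have h1 : ((List.replicate (Encodable.encode M) true ++ [false] ++ p).takeWhile id).length =
          Encodable.encode M := by
        rw [List.append_assoc, List.takeWhile_append_of_pos]
        · simp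
        · intro a ha
          rw [List.mem_replicate] at ha
          simp [ha.2]
      have h2 : (List.replicate (Encodable.encode M) true ++ [false] ++ p).drop
          (Encodable.encode M + 1) = p := by
        rw [List.drop_append_of_le_length (by simp)]
        simp
      simp only [h1, Encodable.encodek, h2, Polynomial.eval_X]
      exact h }

end Pool.IC
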