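import Mathlib

/-!
# The choice of the special strings of one stage
-/

open Finset

namespace Pool.IC

variable {α β ι : Type*} [DecidableEq α] [DecidableEq β] [DecidableEq ι]

/-- Greedy choice of an independent family of representatives. -/
theorem greedy (V W : Finset α) (Q : α → Finset α) (q0 H r : ℕ) (hWV : W ⊆ V)
    (hQ : ∀ z ∈ V, (Q z).card ≤ q0) (hpop : ∀ y ∈ W, (V.filter fun z => y ∈ Q z).card ≤ H)
    (R : ι → Finset α) (I : Finset ι) (hI : I.card ≤ r) (hRW : ∀ i ∈ I, R i ⊆ W)
    (hR : ∀ i ∈ I, r * (1 + q0 + H) < (R i).card) (a0 : α) :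
    ∃ g : ι → α, (∀ i ∈ I, g i ∈ R i) ∧
      ∀ i ∈ I, ∀ j ∈ I, i ≠ j → g i ≠ g j ∧ g j ∉ Q (g i) := by
  induction I using Finset.induction_on with
  | empty => exact ⟨fun _ => a0, by simp, by simp⟩
  | insert i I hi ih =>
    obtain ⟨g, hg1, hg2⟩ := ih ((card_le_card (subset_insert i I)).trans hI)
      (fun j hj => hRW j (mem_insert_of_mem hj)) (fun j hj => hR j (mem_insert_of_mem hj))
    have hgW : ∀ j ∈ I, g j ∈ W := fun j hj => hRW j (mem_insert_of_mem hj) (hg1 j hj)
    have hIr : I.card ≤ r := (card_le_card (subset_insert i I)).trans hI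
    set F : Finset α := I.image g ∪ I.biUnion (fun j => Q (g j)) ∪
      I.biUnion (fun j => V.filter fun y => g j ∈ Q y) with hF
    have hFc : F.card ≤ r * (1 + q0 + H) := by
      have h1 : (I.image g).card ≤ I.card * 1 := by simpa using card_image_le
      have h2 : (I.biUnion (fun j => Q (g j))).card ≤ I.card * q0 :=
        card_biUnion_le_card_mul _ _ _ fun j hj => hQ _ (hWV (hgW j hj))
      have h3 : (I.biUnion (fun j => V.filter fun y => g j ∈ Q y)).card ≤ I.card * H :=
        card_biUnion_le_card_mul _ _ _ fun j hj => hpop _ (hgW j hj)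
      calc F.card ≤ (I.image g ∪ I.biUnion (fun j => Q (g j))).card +
            (I.biUnion (fun j => V.filter fun y => g j ∈ Q y)).card := card_union_le _ _
        _ ≤ ((I.image g).card + (I.biUnion (fun j => Q (g j))).card) +
            (I.biUnion (fun j => V.filter fun y => g j ∈ Q y)).card :=
            Nat.add_le_add_right (card_union_le _ _) _
        _ ≤ (I.card * 1 + I.card * q0) + I.card * H := by omega
        _ = I.card * (1 + q0 + H) := by ring
        _ ≤ r * (1 + q0 + H) := Nat.mul_le_mul_right _ hIr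
    obtain ⟨y, hyR, hyF⟩ : ∃ y ∈ R i, y ∉ F := by
      by_contra hcon
      push Not at hcon
      exact absurd (card_le_card hcon) (not_le.2 (hFc.trans_lt (hR i (mem_insert_self i I))))
    have hyW : y ∈ W := hRW i (mem_insert_self i I) hyR
    have hyV : y ∈ V := hWV hyW
    simp only [hF, mem_union, mem_image, mem_biUnion, mem_filter, not_or, not_exists,
      not_and] at hyF
    obtain ⟨⟨hy1, hy2⟩, hy3⟩ := hyF
    have hne : ∀ j ∈ I, j ≠ i := fun j hj h => hi (h ▸ hj)
    refine ⟨Function.update g i y, ?_, ?_⟩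
    · intro j hj
      rcases mem_insert.1 hj with rfl | hj
      · simpa using hyR
      · rw [Function.update_of_ne (hne j hj)]
        exact hg1 j hj
    · intro j hj l hl hjl
      rcases mem_insert.1 hj with hj | hj
      · rcases mem_insert.1 hl with hl | hl
        · exact absurd (hj.trans hl.symm) hjl
        · rw [hj, Function.update_self, Function.update_of_ne (hne l hl)]
          exact ⟨fun h => hy1 l hl h.symm, hy3 l hl hyV⟩
      · rcases mem_insert.1 hl with hl | hl
        · rw [hl, Function.update_self, Function.update_of_ne (hne j hj)]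
          exact ⟨hy1 j hj, hy2 j hj⟩
        · rw [Function.update_of_ne (hne l hl), Function.update_of_ne (hne j hj)]
          exact hg2 j hj l hl hjl

/-- Choice of the special strings: an independent set which no program isolates. -/
theorem comb (V : Finset α) (P : Finset β) (T : β → Finset α)
    (Q : α → Finset α) (q0 H D θ : ℕ) (hQ : ∀ z ∈ V, (Q z).card ≤ q0)
    (hD : V.card * q0 < (D + 1) * (H + 1))
    (hθ : (2 * P.card + 1) * (1 + q0 + H) + D ≤ θ) (hV : P.card * θ + θ < V.card)
    (hT : ∀ p, T p ⊆ V) :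
    ∃ S ⊆ V, S.Nonempty ∧ S.card ≤ 2 * P.card + 1 ∧
      (∀ z ∈ S, ∀ z' ∈ S, z ≠ z' → z' ∉ Q z) ∧ ∀ p ∈ P, (S ∩ T p).card ≠ 1 := by
  classical
  -- a maximal family with a small union
  obtain ⟨G, hG, hGmax⟩ := exists_max_image
    (P.powerset.filter (fun G : Finset β => (G.biUnion T).card ≤ G.card * θ)) card ⟨∅, by simp⟩
  simp only [mem_filter, mem_powerset] at hG hGmax
  obtain ⟨hGP, hGc⟩ := hG
  set U := G.biUnion T with hU
  have hbig : ∀ p ∈ P, p ∉ G → θ < (T p \ U).card := by
    intro p hp hpG
    by_contra hcon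
    push Not at hcon
    have h1 : ((insert p G).biUnion T).card ≤ (insert p G).card * θ := by
      rw [biUnion_insert, card_insert_of_notMem hpG, ← hU, ← sdiff_union_self_eq_union]
      refine (card_union_le _ _).trans ?_
      have := hGc
      rw [Nat.add_mul, Nat.one_mul]
      omega
    have h2 := hGmax (insert p G) ⟨insert_subset hp hGP, h1⟩
    rw [card_insert_of_notMem hpG] at h2
    omega
  have hUV : U ⊆ V := by
    rw [hU]
    exact biUnion_subset.2 fun p _ => hT p
  have hUc : U.card ≤ P.card * θ :=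
    hGc.trans (Nat.mul_le_mul_right _ (card_le_card hGP))
  have hbigV : θ < (V \ U).card := by
    have := card_sdiff_add_card_eq_card hUV
    omega
  -- few popular elements
  set pp := V.filter fun y => H < (V.filter fun z => y ∈ Q z).card with hpp
  have hppc : pp.card ≤ D := by
    by_contra hcon
    push Not at hcon
    have h1 : (D + 1) * (H + 1) ≤ ∑ y ∈ pp, (V.filter fun z => y ∈ Q z).card := by
      calc (D + 1) * (H + 1) ≤ pp.card * (H + 1) := Nat.mul_le_mul_right _ hcon
        _ = ∑ y ∈ pp, (H + 1) := by simp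
        _ ≤ ∑ y ∈ pp, (V.filter fun z => y ∈ Q z).card :=
            sum_le_sum fun y hy => (mem_filter.1 hy).2
    have h2 : ∑ y ∈ pp, (V.filter fun z => y ∈ Q z).card ≤ V.card * q0 := by
      have h3 : ∑ y ∈ pp, (V.filter fun z => y ∈ Q z).card =
          ∑ z ∈ V, (pp.filter fun y => y ∈ Q z).card := by
        simp only [card_filter]
        exact sum_comm
      rw [h3]
      calc ∑ z ∈ V, (pp.filter fun y => y ∈ Q z).card ≤ ∑ z ∈ V, q0 := by
            refine sum_le_sum fun z hz => ?_
            refine (card_le_card ?_).trans (hQ z hz)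
            intro y hy
            exact (mem_filter.1 hy).2
        _ = V.card * q0 := by simp
    omega
  set W := (V \ U) \ pp with hW
  have hWV : W ⊆ V := sdiff_subset.trans sdiff_subset
  have hpopW : ∀ y ∈ W, (V.filter fun z => y ∈ Q z).card ≤ H := by
    intro y hy
    by_contra hcon
    push Not at hcon
    exact (mem_sdiff.1 hy).2 (mem_filter.2 ⟨hWV hy, hcon⟩)
  have hrem : ∀ X : Finset α, θ < X.card → (2 * P.card + 1) * (1 + q0 + H) < (X \ pp).card := by
    intro X hX
    have := le_card_sdiff pp X
    omega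
  -- the requests
  set R : Option (β × Bool) → Finset α := fun o =>
    match o with
    | none => (V \ U) \ pp
    | some (p, _) => (T p \ U) \ pp with hR
  set I : Finset (Option (β × Bool)) := insertNone ((P \ G) ×ˢ (univ : Finset Bool)) with hI
  have hIc : I.card ≤ 2 * P.card + 1 := by
    rw [hI, card_insertNone, card_product, card_univ, Fintype.card_bool]
    have := card_le_card (sdiff_subset : P \ G ⊆ P)
    omega
  have hV0 : V.Nonempty := by
    rw [← card_pos]
    omega
  obtain ⟨a0, -⟩ := hV0
  obtain ⟨g, hg1, hg2⟩ := greedy V W Q q0 H (2 * P.card + 1) hWV hQ hpopW R I hIc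
    (by
      intro i hi
      rcases i with _ | ⟨p, b⟩
      · exact subset_rfl
      · exact sdiff_subset_sdiff (sdiff_subset_sdiff (hT p) subset_rfl) subset_rfl)
    (by
      intro i hi
      rcases i with _ | ⟨p, b⟩
      · exact hrem _ hbigV
      · rw [hI, some_mem_insertNone, mem_product, mem_sdiff] at hi
        exact hrem _ (hbig p hi.1.1 hi.1.2)) a0
  have hgW : ∀ i ∈ I, g i ∈ W := by
    intro i hi
    have h1 := hg1 i hi
    rcases i with _ | ⟨p, b⟩
    · exact h1
    · exact sdiff_subset_sdiff (sdiff_subset_sdiff (hT p) subset_rfl) subset_rfl h1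
  have hnone : none ∈ I := by
    rw [hI]
    exact none_mem_insertNone
  refine ⟨I.image g, ?_, ⟨g none, mem_image_of_mem g hnone⟩, card_image_le.trans hIc, ?_, ?_⟩
  · intro y hy
    obtain ⟨i, hi, rfl⟩ := mem_image.1 hy
    exact hWV (hgW i hi)
  · intro z hz z' hz' hne
    obtain ⟨i, hi, rfl⟩ := mem_image.1 hz
    obtain ⟨j, hj, rfl⟩ := mem_image.1 hz'
    exact (hg2 i hi j hj fun h => hne (h ▸ rfl)).2
  · intro p hp
    by_cases hpG : p ∈ G
    · have : I.image g ∩ T p = ∅ := by
        rw [← not_nonempty_iff_eq_empty]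
        rintro ⟨y, hy⟩
        rw [mem_inter] at hy
        obtain ⟨i, hi, rfl⟩ := mem_image.1 hy.1
        have h1 := (mem_sdiff.1 (mem_sdiff.1 (hgW i hi)).1).2
        exact h1 (mem_biUnion.2 ⟨p, hpG, hy.2⟩)
      rw [this]
      simp
    · have h1 : ∀ b : Bool, some (p, b) ∈ I := by
        intro b
        rw [hI, some_mem_insertNone, mem_product, mem_sdiff]
        exact ⟨⟨hp, hpG⟩, mem_univ _⟩
      have h2 : ∀ b : Bool, g (some (p, b)) ∈ I.image g ∩ T p := by
        intro b
        rw [mem_inter]
        refine ⟨mem_image_of_mem g (h1 b), ?_⟩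
        have := hg1 _ (h1 b)
        exact (mem_sdiff.1 (mem_sdiff.1 this).1).1
      have h3 := (hg2 _ (h1 false) _ (h1 true) (by simp)).1
      have h4 : 1 < (I.image g ∩ T p).card := one_lt_card.2 ⟨_, h2 false, _, h2 true, h3⟩
      omega

end Pool.IC
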