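import Pool.Agent.Work.MP_af7a01_h91.Stage
import Pool.Agent.Work.MP_af7a01_h91.Inst

open Classical

namespace Pool.IC

/-- The sequence of stages. -/
theorem exists_seq (U : Interpreter) (h : ℕ → ℕ) (e : ℕ) (N : ℕ → Cmd) :
    ∃ σ : ℕ → Stage, ∀ k, ∃ L : ℕ, (∀ j < k, (σ j).bound ≤ L) ∧
      Good U h e (N k) k (⋃ j, ⋃ (_ : j < k), newOr j (σ j)) L (σ k) := by
  choose nxt hnxt using fun (k : ℕ) (B : Set Str) (L : ℕ) => exists_good U h e (N k) k B L
  -- state: previous oracle and bound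
  let state : ℕ → Set Str × ℕ := fun k => Nat.rec (∅, 0)
    (fun j s => (s.1 ∪ newOr j (nxt j s.1 s.2), s.2 + (nxt j s.1 s.2).bound)) k
  have hs : ∀ k, state (k + 1) = ((state k).1 ∪ newOr k (nxt k (state k).1 (state k).2),
      (state k).2 + (nxt k (state k).1 (state k).2).bound) := fun _ => rfl
  refine ⟨fun k => nxt k (state k).1 (state k).2, fun k => ⟨(state k).2, ?_, ?_⟩⟩
  · induction k with
    | zero => intro j hj; omega
    | succ k ih =>
      intro j hj
      rw [hs]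
      rcases Nat.lt_succ_iff_lt_or_eq.1 hj with hj | rfl
      · exact (ih j hj).trans (Nat.le_add_right _ _)
      · exact Nat.le_add_left _ _
  · have h1 : ∀ k, (state k).1 =
        ⋃ j, ⋃ (_ : j < k), newOr j (nxt j (state j).1 (state j).2) := by
      intro k
      induction k with
      | zero =>
        show (∅ : Set Str) = _
        simp
      | succ k ih =>
        rw [hs]
        show (state k).1 ∪ newOr k (nxt k (state k).1 (state k).2) = _
        ext s
        simp only [Set.mem_union, Set.mem_iUnion, exists_prop]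
        nth_rewrite 1 [ih]
        simp only [Set.mem_iUnion, exists_prop]
        constructor
        · rintro (⟨j, hj, h⟩ | h)
          · exact ⟨j, hj.trans k.lt_succ_self, h⟩
          · exact ⟨k, k.lt_succ_self, h⟩
        · rintro ⟨j, hj, h⟩
          rcases Nat.lt_succ_iff_lt_or_eq.1 hj with hj | rfl
          · exact Or.inl ⟨j, hj, h⟩
          · exact Or.inr h
    have h2 := hnxt k (state k).1 (state k).2
    rw [← h1 k]
    exact h2

section
variable {U : Interpreter} {h : ℕ → ℕ} {e : ℕ} {N : ℕ → Cmd} {σ : ℕ → Stage}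

/-- The oracle. -/
def orc (σ : ℕ → Stage) : Set Str := ⋃ k, newOr k (σ k)

/-- The set. -/
def tgt (σ : ℕ → Stage) : Set Str := {z | ∃ k, z ∈ (σ k).S ∧ (σ k).b = true}

/-- The sequence `σ` has the required properties. -/
def Fine (U : Interpreter) (h : ℕ → ℕ) (e : ℕ) (N : ℕ → Cmd)
    (σ : ℕ → Stage) : Prop :=
  ∀ k, ∃ L : ℕ, (∀ j < k, (σ j).bound ≤ L) ∧
      Good U h e (N k) k (⋃ j, ⋃ (_ : j < k), newOr j (σ j)) L (σ k)

theorem Fine.lt (hσ : Fine U h e N σ) {j k : ℕ} (hjk : j < k) :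
    (σ j).bound < 16 * (σ k).m := by
  obtain ⟨L, h1, h2⟩ := hσ k
  exact (h1 j hjk).trans_lt h2.hL

theorem Fine.m_lt (hσ : Fine U h e N σ) {j k : ℕ} (hjk : j < k) : (σ j).m < (σ k).m := by
  have := hσ.lt hjk
  unfold Stage.bound at this
  omega

theorem Fine.inj (hσ : Fine U h e N σ) {j k : ℕ} {z : Str} (hj : z ∈ (σ j).S)
    (hk : z ∈ (σ k).S) : j = k := by
  obtain ⟨_, _, h1⟩ := hσ j
  obtain ⟨_, _, h2⟩ := hσ k
  have h3 := h1.len z hj
  have h4 := h2.len z hk
  rcases lt_trichotomy j k with h | h | h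
  · have := hσ.m_lt h
    omega
  · exact h
  · have := hσ.m_lt h
    omega

theorem mem_orc_mk {z : Str} : mk z ∈ orc σ ↔ ∃ k, z ∈ (σ k).S := by
  unfold orc newOr
  simp only [Set.mem_iUnion, Set.mem_ofPred_eq]
  constructor
  · rintro ⟨k, z', hz', h | h | h | h⟩
    · exact ⟨k, mk_inj h ▸ hz'⟩
    · exact absurd h mk_ne_ix
    · exact absurd h mk_ne_wt
    · exact absurd h mk_ne_fr
  · rintro ⟨k, hk⟩
    exact ⟨k, z, hk, Or.inl rfl⟩

theorem mem_orc_ix {z : Str} {j : ℕ} : ix j z ∈ orc σ ↔ z ∈ (σ j).S := by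
  unfold orc newOr
  simp only [Set.mem_iUnion, Set.mem_ofPred_eq]
  constructor
  · rintro ⟨k, z', hz', h | h | h | h⟩
    · exact absurd h.symm mk_ne_ix
    · obtain ⟨rfl, rfl⟩ := ix_inj h
      exact hz'
    · exact absurd h ix_ne_wt
    · exact absurd h ix_ne_fr
  · intro hk
    exact ⟨j, z, hk, Or.inr (Or.inl rfl)⟩

theorem mem_orc_wt {b : Bool} {w z : Str} :
    wt b w z ∈ orc σ ↔ ∃ k, z ∈ (σ k).S ∧ b = (σ k).b ∧ w = (σ k).w := by
  unfold orc newOr
  simp only [Set.mem_iUnion, Set.mem_ofPred_eq]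
  constructor
  · rintro ⟨k, z', hz', h | h | h | h⟩
    · exact absurd h.symm mk_ne_wt
    · exact absurd h.symm ix_ne_wt
    · obtain ⟨h1, h2, rfl⟩ := wt_inj h
      exact ⟨k, hz', h1, h2⟩
    · exact absurd h wt_ne_fr
  · rintro ⟨k, hk, rfl, rfl⟩
    exact ⟨k, z, hk, Or.inr (Or.inr (Or.inl rfl))⟩

theorem mem_orc_fr {b : Bool} {m : ℕ} {z : Str} :
    fr b m z ∈ orc σ ↔ ∃ k, z ∈ (σ k).S ∧ b = (σ k).b ∧ m = (σ k).M := by
  unfold orc newOr
  simp only [Set.mem_iUnion, Set.mem_ofPred_eq]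
  constructor
  · rintro ⟨k, z', hz', h | h | h | h⟩
    · exact absurd h.symm mk_ne_fr
    · exact absurd h.symm ix_ne_fr
    · exact absurd h.symm wt_ne_fr
    · obtain ⟨h1, h2, rfl⟩ := fr_inj h
      exact ⟨k, hz', h1, h2⟩
  · rintro ⟨k, hk, rfl, rfl⟩
    exact ⟨k, z, hk, Or.inr (Or.inr (Or.inr rfl))⟩

theorem mem_tgt (hσ : Fine U h e N σ) {k : ℕ} {z : Str} (hz : z ∈ (σ k).S) :
    z ∈ tgt σ ↔ (σ k).b = true := by
  constructor
  · rintro ⟨j, hj, hb⟩
    rw [hσ.inj hz hj]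
    exact hb
  · intro hb
    exact ⟨k, hz, hb⟩

theorem tgt_sub {z : Str} (hz : z ∈ tgt σ) : mk z ∈ orc σ := by
  obtain ⟨k, hk, -⟩ := hz
  exact mem_orc_mk.2 ⟨k, hk⟩

theorem chi_tgt (hσ : Fine U h e N σ) {k : ℕ} {z : Str} (hz : z ∈ (σ k).S) :
    chi (tgt σ) z = [(σ k).b] := by
  unfold chi
  rw [mem_tgt hσ hz]
  simp

theorem chi_tgt_not {z : Str} (hz : mk z ∉ orc σ) : chi (tgt σ) z = [false] := by
  have : z ∉ tgt σ := fun h => hz (tgt_sub h)
  simp [chi, this]

/-- The length of every string of the oracle of stage `k` is at least `16 m_k`. -/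
theorem newOr_length (hσ : Fine U h e N σ) {k : ℕ} {s : Str} (hs : s ∈ newOr k (σ k)) :
    16 * (σ k).m ≤ s.length := by
  obtain ⟨_, _, h1⟩ := hσ k
  obtain ⟨z, hz, h | h | h | h⟩ := hs
  · rw [h, length_mk, h1.len z hz]; omega
  · rw [h, length_ix, h1.len z hz]; omega
  · rw [h, length_wt, h1.len z hz]; omega
  · rw [h, length_fr, h1.len z hz]; omega

/-- Up to the bound of stage `k` the oracle is the one of the stages `≤ k`. -/
theorem agree (hσ : Fine U h e N σ) (k : ℕ) (s : Str) (hs : s.length ≤ (σ k).bound) :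
    s ∈ orc σ ↔ s ∈ (⋃ j, ⋃ (_ : j < k), newOr j (σ j)) ∪ newOr k (σ k) := by
  unfold orc
  simp only [Set.mem_union, Set.mem_iUnion, exists_prop]
  constructor
  · rintro ⟨j, hj⟩
    rcases lt_trichotomy j k with hjk | hjk | hjk
    · exact Or.inl ⟨j, hjk, hj⟩
    · subst hjk
      exact Or.inr hj
    · have h1 := newOr_length hσ hj
      have h2 := hσ.lt hjk
      omega
  · rintro (⟨j, -, hj⟩ | hk)
    · exact ⟨j, hj⟩
    · exact ⟨k, hk⟩

theorem Fine.decidableIn (hσ : Fine U h e N σ) : DecidableIn (orc σ) (tgt σ) := by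
  refine ⟨decProg, fun z => ?_⟩
  by_cases hz : mk z ∈ orc σ
  · obtain ⟨k, hk⟩ := mem_orc_mk.1 hz
    rw [chi_tgt hσ hk]
    refine decProg_yes (orc σ) z hz (σ k).b (σ k).M (mem_orc_fr.2 ⟨k, hk, rfl, rfl⟩) ?_ ?_
    · intro h1
      obtain ⟨j, hj, hb, -⟩ := mem_orc_fr.1 h1
      rw [← hσ.inj hk hj] at hb
      cases hb' : (σ k).b <;> simp [hb'] at hb
    · intro m hm x h1
      obtain ⟨j, hj, -, hm'⟩ := mem_orc_fr.1 h1
      rw [← hσ.inj hk hj] at hm'
      omega
  · rw [chi_tgt_not hz]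
    exact decProg_no (orc σ) z hz

theorem Fine.m_ge (hσ : Fine U h e N σ) (k : ℕ) : k ≤ (σ k).m := by
  obtain ⟨_, _, hg⟩ := hσ k
  exact hg.hk

theorem Fine.notInTime (hσ : Fine U h e N σ) (hN : ∀ M : Cmd, ∀ k0 : ℕ, ∃ k ≥ k0, N k = M)
    {t : ℕ → ℕ} (ht : Small t) : ¬ InTime (orc σ) t (tgt σ) := by
  rintro ⟨M, hM⟩
  obtain ⟨m0, hm0⟩ := ht.eventually
  obtain ⟨k, hk0, hk⟩ := hN M m0
  obtain ⟨_, _, hg⟩ := hσ k
  obtain ⟨z, hz, hne⟩ := (hg.loc (orc σ) (agree hσ k)).2
  rw [hk] at hne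
  refine hne ?_
  have := hM z
  rw [chi_tgt hσ hz, hg.len z hz] at this
  exact out_mono this (hm0 _ (hk0.le.trans (hσ.m_ge k)))

theorem Fine.inUP (hσ : Fine U h e N σ) : InUP (orc σ) (tgt σ) := by
  refine ⟨verProg true, Polynomial.C 12 * Polynomial.X + Polynomial.C 30, Polynomial.X,
    {yz | wt true yz.1 yz.2 ∈ orc σ}, ?_, ?_, ?_, ?_⟩
  · intro y z
    refine out_verProg (orc σ) true y z ?_
    simp only [Polynomial.eval_add, Polynomial.eval_mul, Polynomial.eval_C, Polynomial.eval_X]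
    exact le_rfl
  · intro y z hy
    obtain ⟨k, hk, -, rfl⟩ := mem_orc_wt.1 hy
    obtain ⟨_, _, hg⟩ := hσ k
    rw [Polynomial.eval_X, hg.len z hk, hg.wlen]
  · intro y y' z hy hy'
    obtain ⟨k, hk, -, rfl⟩ := mem_orc_wt.1 hy
    obtain ⟨j, hj, -, rfl⟩ := mem_orc_wt.1 hy'
    rw [hσ.inj hk hj]
  · intro z
    constructor
    · rintro ⟨k, hk, hb⟩
      exact ⟨(σ k).w, mem_orc_wt.2 ⟨k, hk, hb.symm, rfl⟩⟩
    · rintro ⟨y, hy⟩
      obtain ⟨k, hk, hb, -⟩ := mem_orc_wt.1 hy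
      exact ⟨k, hk, hb.symm⟩

theorem Fine.w_ne (hσ : Fine U h e N σ) (k : ℕ) : (σ k).w ≠ [] := by
  obtain ⟨_, _, hg⟩ := hσ k
  intro h0
  have h1 := hg.wlen
  have h2 := hg.hm
  rw [h0, List.length_nil] at h1
  omega

theorem Fine.inCoUP (hσ : Fine U h e N σ) : InUP (orc σ) (tgt σ)ᶜ := by
  refine ⟨coverProg, Polynomial.C 12 * Polynomial.X + Polynomial.C 31, Polynomial.X,
    {yz | (yz.1 = [] ∧ mk yz.2 ∉ orc σ) ∨ (yz.1 ≠ [] ∧ wt false yz.1 yz.2 ∈ orc σ)},
    ?_, ?_, ?_, ?_⟩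
  · intro y z
    refine (out_coverProg (orc σ) y z ?_).trans ?_
    · simp only [Polynomial.eval_add, Polynomial.eval_mul, Polynomial.eval_C, Polynomial.eval_X]
      exact le_rfl
    · congr 2
      exact decide_eq_decide.2 Iff.rfl
  · rintro y z (⟨hy, -⟩ | ⟨-, hy⟩)
    · have hy' : y = [] := hy
      rw [hy']
      simp
    · obtain ⟨k, hk, -, hw⟩ := mem_orc_wt.1 hy
      obtain ⟨_, _, hg⟩ := hσ k
      have hw' : y = (σ k).w := hw
      rw [Polynomial.eval_X, hg.len z hk, hw', hg.wlen]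
  · rintro y y' z (⟨hy, hz⟩ | ⟨hy0, hy⟩) (⟨hy', hz'⟩ | ⟨hy0', hy'⟩)
    · exact (show y = [] from hy).trans (show y' = [] from hy').symm
    · obtain ⟨k, hk, -, -⟩ := mem_orc_wt.1 hy'
      exact absurd (mem_orc_mk.2 ⟨k, hk⟩) hz
    · obtain ⟨k, hk, -, -⟩ := mem_orc_wt.1 hy
      exact absurd (mem_orc_mk.2 ⟨k, hk⟩) hz'
    · obtain ⟨k, hk, -, hw⟩ := mem_orc_wt.1 hy
      obtain ⟨j, hj, -, hw'⟩ := mem_orc_wt.1 hy'
      rw [hσ.inj hk hj] at hw
      exact (show y = (σ j).w from hw).trans (show y' = (σ j).w from hw').symm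
  · intro z
    rw [Set.mem_compl_iff]
    constructor
    · intro hz
      by_cases hm : mk z ∈ orc σ
      · obtain ⟨k, hk⟩ := mem_orc_mk.1 hm
        refine ⟨(σ k).w, Or.inr ⟨hσ.w_ne k, mem_orc_wt.2 ⟨k, hk, ?_, rfl⟩⟩⟩
        rw [mem_tgt hσ hk] at hz
        simpa using hz
      · exact ⟨[], Or.inl ⟨rfl, hm⟩⟩
    · rintro ⟨y, (⟨-, hm⟩ | ⟨-, hy⟩)⟩ hz
      · exact hm (tgt_sub hz)
      · obtain ⟨k, hk, hb, -⟩ := mem_orc_wt.1 hy
        rw [mem_tgt hσ hk] at hz
        rw [hz] at hb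
        exact absurd hb (by simp)

/-! ### Upper bound for the instance complexity -/

/-- The code `pre` makes `U` simulate `icProg` with time overhead `q`. -/
def Sim (U : Interpreter) (pre : Str) (q : Polynomial ℕ) : Prop :=
  ∀ (B : Set Str) (p y z : Str) (n : ℕ) (o : Str),
    out B icProg p y z n = some o → U.run B (pre ++ p) y z (q.eval n) = some o

/-- The time bound for the instance complexity. -/
noncomputable def icTime (q : Polynomial ℕ) : Polynomial ℕ :=
  q.comp (Polynomial.C 19 * Polynomial.X + Polynomial.C 30)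

theorem icTime_eval (q : Polynomial ℕ) (n : ℕ) : (icTime q).eval n = q.eval (19 * n + 30) := by
  unfold icTime
  rw [Polynomial.eval_comp]
  simp only [Polynomial.eval_add, Polynomial.eval_mul, Polynomial.eval_C, Polynomial.eval_X]

theorem run_ic {pre : Str} {q : Polynomial ℕ} (hS : Sim U pre q) (B : Set Str) (p z : Str) :
    U.run B (pre ++ p) [] z ((icTime q).eval z.length) = some (icOut B p z) := by
  rw [icTime_eval]
  exact hS B p [] z _ _ (out_icProg B p z le_rfl)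

theorem ic_le_not {pre : Str} {q : Polynomial ℕ} (hS : Sim U pre q) {x : Str}
    (hx : mk x ∉ orc σ) :
    ic U (orc σ) (fun n => (icTime q).eval n) x (tgt σ) ≤ (pre.length : ℕ∞) := by
  unfold ic
  refine iInf₂_le_of_le pre ?_ le_rfl
  have hrun : ∀ z, U.run (orc σ) pre [] z ((icTime q).eval z.length) =
      some (icOut (orc σ) [] z) := by
    intro z
    have := run_ic hS (orc σ) [] z
    rwa [List.append_nil] at this
  refine ⟨fun z => ?_, ?_⟩
  · rw [hrun z]
    by_cases hz : mk z ∈ orc σ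
    · right
      simp [icOut, hz]
    · left
      rw [chi_tgt_not hz]
      simp [icOut, hz]
  · show U.run (orc σ) pre [] x ((icTime q).eval x.length) = _
    rw [hrun x, chi_tgt_not hx]
    simp [icOut, hx]

theorem ic_le {pre : Str} {q : Polynomial ℕ} (hS : Sim U pre q) (hσ : Fine U h e N σ) {k : ℕ}
    {x : Str} (hx : x ∈ (σ k).S) :
    ic U (orc σ) (fun n => (icTime q).eval n) x (tgt σ) ≤ ((pre.length + k + 1 : ℕ) : ℕ∞) := by
  unfold ic
  refine iInf₂_le_of_le (pre ++ ((σ k).b :: List.replicate k true)) ?_ ?_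
  · have hrun : ∀ z, U.run (orc σ) (pre ++ ((σ k).b :: List.replicate k true)) [] z
        ((icTime q).eval z.length) =
        some (icOut (orc σ) ((σ k).b :: List.replicate k true) z) :=
      fun z => run_ic hS (orc σ) _ z
    refine ⟨fun z => ?_, ?_⟩
    · rw [hrun z]
      by_cases hz : mk z ∈ orc σ
      · simp only [icOut, hz, if_true, List.length_replicate]
        by_cases h2 : k ≤ z.length ∧ ix k z ∈ orc σ
        · left
          rw [if_pos h2, chi_tgt hσ (mem_orc_ix.1 h2.2)]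
        · right
          rw [if_neg h2]
      · left
        rw [chi_tgt_not hz]
        simp [icOut, hz]
    · show U.run (orc σ) (pre ++ ((σ k).b :: List.replicate k true)) [] x
        ((icTime q).eval x.length) = _
      rw [hrun x, chi_tgt hσ hx]
      have h1 : mk x ∈ orc σ := mem_orc_mk.2 ⟨k, hx⟩
      have h2 : k ≤ x.length ∧ ix k x ∈ orc σ := by
        refine ⟨?_, mem_orc_ix.2 hx⟩
        obtain ⟨_, _, hg⟩ := hσ k
        rw [hg.len x hx]
        have := hg.hk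
        omega
      simp only [icOut, h1, if_true, List.length_replicate]
      rw [if_pos h2]
  · have : (pre ++ ((σ k).b :: List.replicate k true)).length = pre.length + k + 1 := by
      simp; ring
    rw [this]

/-! ### Lower bounds for the CD-complexity -/

theorem le_CD (hσ : Fine U h e N σ) {k : ℕ} {x : Str} (hx : x ∈ (σ k).S) {t : ℕ → ℕ}
    (ht : t (16 * (σ k).m) ≤ 2 ^ (σ k).m) :
    ((2 * (σ k).m : ℕ) : ℕ∞) ≤ CD U (orc σ) t x := by
  unfold CD
  refine le_iInf₂ fun p hp => ?_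
  by_contra hcon
  rw [not_le, Nat.cast_lt] at hcon
  obtain ⟨_, _, hg⟩ := hσ k
  refine (hg.loc (orc σ) (agree hσ k)).1 p hcon x hx fun z hz => ?_
  have h1 : U.run (orc σ) p [] z (t z.length) = some (chi {x} z) := hp z
  rw [hg.len z hz] at h1
  exact U.mono _ _ _ _ _ _ _ ht h1

theorem finite_CD (U : Interpreter) (B : Set Str) (t : ℕ → ℕ) (K : ℕ) :
    {x : Str | ¬ ((K : ℕ∞) < CD U B t x)}.Finite := by
  have hsub : {x : Str | ¬ ((K : ℕ∞) < CD U B t x)} ⊆
      ⋃ p ∈ (short (K + 1) : Finset Str),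
        {x : Str | ∀ z : Str, U.run B p [] z (t z.length) = some (chi {x} z)} := by
    intro x hx
    by_contra hcon
    simp only [Set.mem_iUnion, not_exists] at hcon
    apply hx
    have h1 : ((K + 1 : ℕ) : ℕ∞) ≤ CD U B t x := by
      unfold CD
      refine le_iInf₂ fun p hp => ?_
      by_contra h2
      rw [not_le, Nat.cast_lt] at h2
      exact hcon p (mem_short.2 h2) hp
    refine lt_of_lt_of_le ?_ h1
    exact_mod_cast Nat.lt_succ_self K
  refine Set.Finite.subset (Set.Finite.biUnion (Finset.finite_toSet _) fun p _ => ?_) hsub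
  refine Set.Subsingleton.finite ?_
  intro x hx x' hx'
  have h1 : U.run B p [] x (t x.length) = some (chi {x} x) := hx x
  have h2 : U.run B p [] x (t x.length) = some (chi {x'} x) := hx' x
  rw [h1] at h2
  simpa [chi] using h2

end

/-- Every program occurs infinitely often in some enumeration. -/
theorem exists_enum : ∃ N : ℕ → Cmd, ∀ M : Cmd, ∀ k0 : ℕ, ∃ k ≥ k0, N k = M := by
  have : Nonempty (Cmd × ℕ) := ⟨(Cmd.skip, 0)⟩
  obtain ⟨f, hf⟩ := exists_surjective_nat (Cmd × ℕ)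
  refine ⟨fun k => (f k).1, fun M k0 => ?_⟩
  by_contra hcon
  push Not at hcon
  choose g hg using fun j : ℕ => hf (M, j)
  have hinj : Function.Injective g := by
    intro i j hij
    have h1 := hg i
    rw [hij, hg j] at h1
    exact (Prod.mk.inj h1).2.symm
  have hlt : ∀ j, g j < k0 := by
    intro j
    by_contra h1
    exact hcon (g j) (not_lt.1 h1) (by rw [hg j])
  have h2 : Set.Infinite (Set.range g) := Set.infinite_range_of_injective hinj
  exact h2 ((Set.finite_Iio k0).subset (by rintro _ ⟨j, rfl⟩; exact hlt j))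

theorem main (U : Interpreter) (h : ℕ → ℕ) : ∃ B A : Set Str,
    DecidableIn B A ∧ ¬ InP B A ∧ (∀ t : ℕ → ℕ, Small t → ¬ InTime B t A) ∧
    InUP B A ∧ InUP B Aᶜ ∧
    ∃ (t : Polynomial ℕ) (c₀ : ℕ), ∀ t' : ℕ → ℕ, Small t' →
      (∀ c : ℕ, ∀ᶠ x in Filter.cofinite, ∃ i : ℕ,
        ic U B (fun n => t.eval n) x A = i ∧ ((h i + c : ℕ) : ℕ∞) < CD U B t' x) ∧
      ∀ᶠ x in Filter.cofinite,
        ic U B (fun n => t.eval n) x A ≤ c₀ ∨ (x.length : ℕ∞) ≤ 8 * CD U B t' x := by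
  obtain ⟨pre, q, hS⟩ := U.sim icProg
  replace hS : Sim U pre q := hS
  obtain ⟨N, hN⟩ := exists_enum
  obtain ⟨σ, hσ⟩ := exists_seq U h pre.length N
  replace hσ : Fine U h pre.length N σ := hσ
  refine ⟨orc σ, tgt σ, hσ.decidableIn, ?_, fun t ht => hσ.notInTime hN ht, hσ.inUP,
    hσ.inCoUP, icTime q, pre.length, ?_⟩
  · rintro ⟨r, hr⟩
    exact hσ.notInTime hN (poly_small r) hr
  intro t' ht'
  obtain ⟨m0, hm0⟩ := ht'.eventually
  have hfin : ∀ k0 : ℕ, {x : Str | ∃ k < k0, x ∈ (σ k).S}.Finite := by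
    intro k0
    refine Set.Finite.subset (Set.Finite.biUnion (Set.finite_Iio k0)
      (t := fun k => ((σ k).S : Set Str)) fun k _ => (σ k).S.finite_toSet) ?_
    rintro x ⟨k, hk, hx⟩
    exact Set.mem_biUnion (show k ∈ Set.Iio k0 from hk) hx
  constructor
  · intro c
    rw [Filter.eventually_cofinite]
    set K := ∑ j ∈ Finset.range (pre.length + 1), h j + c with hK
    refine ((hfin (max m0 (c + 1))).union (finite_CD U (orc σ) t' K)).subset ?_
    intro x hx
    by_contra hcon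
    simp only [Set.mem_union, not_or] at hcon
    obtain ⟨hcon1, hcon2⟩ := hcon
    apply hx
    by_cases hm : mk x ∈ orc σ
    · obtain ⟨k, hk⟩ := mem_orc_mk.1 hm
      have hk0 : max m0 (c + 1) ≤ k := by
        by_contra h1
        exact hcon1 ⟨k, not_le.1 h1, hk⟩
      obtain ⟨i, hi, hi2⟩ := ENat.le_natCast_iff.1 (ic_le hS hσ hk)
      refine ⟨i, hi, ?_⟩
      obtain ⟨_, _, hg⟩ := hσ k
      have h1 := hg.hh i hi2
      have h2 := le_CD hσ hk (t := t') (hm0 _ (by
        have := hg.hk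
        omega))
      refine lt_of_lt_of_le ?_ h2
      rw [Nat.cast_lt]
      omega
    · obtain ⟨i, hi, hi2⟩ := ENat.le_natCast_iff.1 (ic_le_not hS hm)
      refine ⟨i, hi, ?_⟩
      have h1 : (K : ℕ∞) < CD U (orc σ) t' x := by
        by_contra h2
        exact hcon2 h2
      refine lt_of_le_of_lt ?_ h1
      rw [Nat.cast_le, hK]
      have : h i ≤ ∑ j ∈ Finset.range (pre.length + 1), h j :=
        Finset.single_le_sum (f := h) (fun _ _ => Nat.zero_le _) (Finset.mem_range.2 (by omega))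
      omega
  · rw [Filter.eventually_cofinite]
    refine (hfin m0).subset ?_
    intro x hx
    by_contra hcon
    apply hx
    by_cases hm : mk x ∈ orc σ
    · right
      obtain ⟨k, hk⟩ := mem_orc_mk.1 hm
      have hk0 : m0 ≤ k := by
        by_contra h1
        exact hcon ⟨k, not_le.1 h1, hk⟩
      obtain ⟨_, _, hg⟩ := hσ k
      have h2 := le_CD hσ hk (t := t') (hm0 _ (hk0.trans hg.hk))
      rw [hg.len x hk]
      calc ((16 * (σ k).m : ℕ) : ℕ∞) = 8 * ((2 * (σ k).m : ℕ) : ℕ∞) := by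
            push_cast
            ring
        _ ≤ 8 * CD U (orc σ) t' x := by gcongr
    · left
      exact ic_le_not hS hm

end Pool.IC
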