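import Pool.Agent.Work.OracleCmd_h91.Progs

open Classical

namespace Pool.IC

/-! ### The strings of the oracle -/

/-- `mk z` in the oracle: `z` is a special string. -/
def mk (z : Str) : Str := false :: z

/-- `ix k z` in the oracle: `z` is a special string of stage `k`. -/
def ix (k : ℕ) (z : Str) : Str := true :: false :: (List.replicate k true ++ false :: z)

/-- `fr b m z` in the oracle: the bit of the special string `z` is `b` (for one large `m`). -/
def fr (b : Bool) (m : ℕ) (z : Str) : Str :=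
  true :: true :: true :: b :: (List.replicate m false ++ true :: z)

/-! ### The program for instance complexity -/

/-- While stack 2 is not empty: pop it, and if stack 0 is not empty pop it and push a `true` on
stack 4. -/
def cnt : Cmd :=
  Cmd.loop 2 (Cmd.seq (Cmd.pop 2) (Cmd.branch 0 Cmd.skip
    (Cmd.seq (Cmd.pop 0) (Cmd.push 4 true)) (Cmd.seq (Cmd.pop 0) (Cmd.push 4 true))))

theorem cnt_spec (B : Set Str) (b d f g : Str) (r z e : Str) :
    ExecLe B cnt (st r b z d e f g) (7 * z.length + 1)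
      (st (r.drop z.length) b [] d (List.replicate (min r.length z.length) true ++ e) f g) := by
  unfold cnt
  induction z generalizing r e with
  | nil =>
    simp only [List.length_nil, List.drop_zero, Nat.min_zero, List.replicate_zero,
      List.nil_append]
    exact ExecLe.loop_nil rfl
  | cons x z ih =>
    cases r with
    | nil =>
      have h1 : ExecLe B (Cmd.seq (Cmd.pop 2) (Cmd.branch 0 Cmd.skip
          (Cmd.seq (Cmd.pop 0) (Cmd.push 4 true)) (Cmd.seq (Cmd.pop 0) (Cmd.push 4 true))))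
          (st [] b (x :: z) d e f g) 4 (st [] b z d e f g) :=
        ((pop2 B [] b (x :: z) d e f g).seq (ExecLe.branch_nil rfl (le_skip B _)))
      have h2 := (ExecLe.loop_step (i := 2) (by simp [st]) h1 (ih [] e)).mono
        (n := 7 * (x :: z).length + 1) (by simp only [List.length_cons]; omega)
      simpa using h2
    | cons y r =>
      have h1 : ExecLe B (Cmd.seq (Cmd.pop 2) (Cmd.branch 0 Cmd.skip
          (Cmd.seq (Cmd.pop 0) (Cmd.push 4 true)) (Cmd.seq (Cmd.pop 0) (Cmd.push 4 true))))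
          (st (y :: r) b (x :: z) d e f g) 6 (st r b z d (true :: e) f g) := by
        refine ((pop2 B (y :: r) b (x :: z) d e f g).seq
          (ExecLe.branch_cons (b := y) (l := r) (n := 3) rfl ?_))
        cases y
        · exact (pop0 B (false :: r) b z d e f g).seq (push4 B r b z d e f g true)
        · exact (pop0 B (true :: r) b z d e f g).seq (push4 B r b z d e f g true)
      have h2 := (ExecLe.loop_step (i := 2) (by simp [st]) h1 (ih r (true :: e))).mono
        (n := 7 * (x :: z).length + 1) (by simp only [List.length_cons]; omega)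
      have h3 : List.replicate (min (y :: r).length (x :: z).length) true ++ e =
          List.replicate (min r.length z.length) true ++ true :: e := by
        simp only [List.length_cons, Nat.succ_min_succ, List.replicate_succ']
        simp
      rw [h3]
      simpa using h2

/-- Last part of the program for the instance complexity. -/
def icEnd : Cmd :=
  Cmd.branch 0 (Cmd.seq (Cmd.push 4 false) (Cmd.seq (Cmd.push 4 true)
    (Cmd.ask 4 (Cmd.branch 6 Cmd.skip (Cmd.push 3 false) (Cmd.push 3 true)) Cmd.skip)))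
    Cmd.skip Cmd.skip

/-- The program for the upper bound of the instance complexity. -/
def icProg : Cmd :=
  Cmd.seq cp (Cmd.seq (Cmd.push 4 false) (Cmd.ask 4
    (Cmd.branch 0 Cmd.skip
      (Cmd.seq (Cmd.pop 0) (Cmd.seq (Cmd.push 6 false) (Cmd.seq cnt icEnd)))
      (Cmd.seq (Cmd.pop 0) (Cmd.seq (Cmd.push 6 true) (Cmd.seq cnt icEnd))))
    (Cmd.push 3 false)))

/-- Output of `icProg`. -/
noncomputable def icOut (B : Set Str) (p z : Str) : Str :=
  if mk z ∈ B then
    match p with
    | [] => []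
    | b :: r => if r.length ≤ z.length ∧ ix r.length z ∈ B then [b] else []
  else [false]

theorem icEnd_spec (B : Set Str) (r z : Str) (b : Bool) :
    ∃ s', ExecLe B icEnd (st (r.drop z.length) [] [] []
      (List.replicate (min r.length z.length) true ++ false :: z) [] [b]) 8 s' ∧
      s' 3 = if r.length ≤ z.length ∧ ix r.length z ∈ B then [b] else [] := by
  unfold icEnd
  by_cases h : r.length ≤ z.length
  · rw [List.drop_eq_nil_of_le h, Nat.min_eq_left h]
    by_cases h2 : ix r.length z ∈ B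
    · rw [if_pos ⟨h, h2⟩]
      refine ⟨st [] [] [] [b] (ix r.length z) [] [b], ?_, rfl⟩
      refine (ExecLe.branch_nil rfl ((push4 B _ _ _ _ _ _ _ false).seq
        ((push4 B _ _ _ _ _ _ _ true).seq (ask4_yes h2
          (ExecLe.branch_cons (b := b) (l := []) (n := 1) rfl ?_))))).mono (by norm_num)
      cases b
      · exact push3 B _ _ _ _ _ _ _ false
      · exact push3 B _ _ _ _ _ _ _ true
    · rw [if_neg (fun h' => h2 h'.2)]
      refine ⟨st [] [] [] [] (ix r.length z) [] [b], ?_, rfl⟩
      exact (ExecLe.branch_nil rfl ((push4 B _ _ _ _ _ _ _ false).seq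
        ((push4 B _ _ _ _ _ _ _ true).seq (ask4_no h2 (le_skip B _))))).mono (by norm_num)
  · rw [if_neg (fun h' => h h'.1)]
    obtain ⟨y, l, hl⟩ : ∃ y l, r.drop z.length = y :: l := by
      cases hd : r.drop z.length with
      | nil => exact absurd (List.drop_eq_nil_iff.1 hd) h
      | cons y l => exact ⟨y, l, rfl⟩
    rw [hl]
    refine ⟨st (y :: l) [] [] [] (List.replicate (min r.length z.length) true ++ false :: z) []
      [b], ?_, rfl⟩
    refine (ExecLe.branch_cons (b := y) (l := l) (n := 1) rfl ?_).mono (by norm_num)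
    cases y <;> exact le_skip B _

theorem icProg_spec (B : Set Str) (p z : Str) :
    ∃ s', ExecLe B icProg (st p [] z [] [] [] []) (19 * z.length + 30) s' ∧
      s' 3 = icOut B p z := by
  unfold icProg icOut
  by_cases h : mk z ∈ B
  · rw [if_pos h]
    cases p with
    | nil =>
      refine ⟨st [] [] z [] (mk z) [] [], ?_, rfl⟩
      exact ((cp_spec B [] [] z [] []).seq ((push4 B _ _ _ _ _ _ _ false).seq
        (ask4_yes h (ExecLe.branch_nil rfl (le_skip B _))))).mono (by omega)
    | cons b r =>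
      obtain ⟨s', h1, h2⟩ := icEnd_spec B r z b
      refine ⟨s', ?_, h2⟩
      refine ((cp_spec B (b :: r) [] z [] []).seq ((push4 B _ _ _ _ _ _ _ false).seq
        (ask4_yes h (ExecLe.branch_cons (b := b) (l := r) (n := 7 * z.length + 14)
          rfl ?_)))).mono (by omega)
      cases b
      · exact ((pop0 B _ _ _ _ _ _ _).seq ((push6 B _ _ _ _ _ _ _ false).seq
          ((cnt_spec B [] [] [] [false] r z (false :: z)).seq h1))).mono (by omega)
      · exact ((pop0 B _ _ _ _ _ _ _).seq ((push6 B _ _ _ _ _ _ _ true).seq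
          ((cnt_spec B [] [] [] [true] r z (false :: z)).seq h1))).mono (by omega)
  · rw [if_neg h]
    refine ⟨st p [] z [false] (mk z) [] [], ?_, rfl⟩
    exact ((cp_spec B p [] z [] []).seq ((push4 B _ _ _ _ _ _ _ false).seq
      (ask4_no h (push3 B _ _ _ _ _ _ _ false)))).mono (by omega)

theorem out_icProg (B : Set Str) (p z : Str) {n : ℕ} (hn : 19 * z.length + 30 ≤ n) :
    out B icProg p [] z n = some (icOut B p z) := by
  obtain ⟨s', ⟨m, hm, h1⟩, h2⟩ := icProg_spec B p z
  rw [← init_eq] at h1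
  rw [out_of_exec h1 (hm.trans hn), h2]

/-- Verifier for the complement. -/
def coverProg : Cmd :=
  Cmd.branch 1 (Cmd.seq (mv 2 5) (Cmd.seq (mv 5 4) (Cmd.seq (Cmd.push 4 false)
    (Cmd.ask 4 (Cmd.push 3 false) (Cmd.push 3 true))))) (verProg false) (verProg false)

theorem out_coverProg (B : Set Str) (y z : Str) {n : ℕ}
    (hn : 12 * (y.length + z.length) + 31 ≤ n) :
    out B coverProg [] y z n =
      some [decide ((y = [] ∧ mk z ∉ B) ∨ (y ≠ [] ∧ wt false y z ∈ B))] := by
  cases y with
  | nil =>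
    have h1 := mv25 B [] [] [] [] [] z []
    have h2 := mv54 B [] [] [] [] [] [] z.reverse
    rw [List.append_nil] at h1
    simp only [List.reverse_reverse, List.append_nil, List.length_reverse] at h2
    by_cases h : mk z ∈ B
    · have h3 : ExecLe B coverProg (st [] [] z [] [] [] []) n
          (st [] [] [] [false] (mk z) [] []) := by
        unfold coverProg
        exact (ExecLe.branch_nil rfl (h1.seq (h2.seq ((push4 B _ _ _ _ _ _ _ false).seq
          (ask4_yes h (push3 B _ _ _ _ _ _ _ false)))))).mono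
          (by simp only [List.length_nil] at hn; omega)
      obtain ⟨m, hm, h4⟩ := h3
      rw [← init_eq] at h4
      rw [out_of_exec h4 hm]
      simp [h, st]
    · have h3 : ExecLe B coverProg (st [] [] z [] [] [] []) n
          (st [] [] [] [true] (mk z) [] []) := by
        unfold coverProg
        exact (ExecLe.branch_nil rfl (h1.seq (h2.seq ((push4 B _ _ _ _ _ _ _ false).seq
          (ask4_no h (push3 B _ _ _ _ _ _ _ true)))))).mono
          (by simp only [List.length_nil] at hn; omega)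
      obtain ⟨m, hm, h4⟩ := h3
      rw [← init_eq] at h4
      rw [out_of_exec h4 hm]
      simp [h, st]
  | cons x y =>
    obtain ⟨s', h1, h2⟩ := verProg_spec B false (x :: y) z
    have h3 : ExecLe B coverProg (st [] (x :: y) z [] [] [] []) n s' := by
      unfold coverProg
      refine (ExecLe.branch_cons (b := x) (l := y) rfl ?_).mono hn
      cases x <;> exact h1
    obtain ⟨m, hm, h4⟩ := h3
    rw [← init_eq] at h4
    rw [out_of_exec h4 hm, h2]
    simp

/-! ### The decision program -/

/-- Body of the main loop of the decision program: stack 4 contains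
`replicate m false ++ true :: z`. -/
def decBody : Cmd :=
  Cmd.seq (Cmd.push 4 true) (Cmd.seq (Cmd.push 4 true) (Cmd.seq (Cmd.push 4 true)
    (Cmd.seq (Cmd.push 4 true) (Cmd.ask 4 (Cmd.seq (Cmd.push 3 true) (Cmd.pop 6))
      (Cmd.seq (Cmd.pop 4) (Cmd.seq (Cmd.pop 4) (Cmd.seq (Cmd.pop 4) (Cmd.seq (Cmd.pop 4)
        (Cmd.seq (Cmd.push 4 false) (Cmd.seq (Cmd.push 4 true) (Cmd.seq (Cmd.push 4 true)
          (Cmd.seq (Cmd.push 4 true) (Cmd.ask 4 (Cmd.seq (Cmd.push 3 false) (Cmd.pop 6))
            (Cmd.seq (Cmd.pop 4) (Cmd.seq (Cmd.pop 4) (Cmd.seq (Cmd.pop 4) (Cmd.seq (Cmd.pop 4)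
              (Cmd.push 4 false))))))))))))))))))

/-- The decision program. -/
def decProg : Cmd :=
  Cmd.seq (mv 2 5) (Cmd.seq (mv 5 4) (Cmd.seq (Cmd.push 4 false) (Cmd.ask 4
    (Cmd.seq (Cmd.pop 4) (Cmd.seq (Cmd.push 4 true) (Cmd.seq (Cmd.push 6 true)
      (Cmd.loop 6 decBody)))) (Cmd.push 3 false))))

theorem decBody_next (B : Set Str) (m : ℕ) (z : Str) (h1 : fr true m z ∉ B)
    (h0 : fr false m z ∉ B) :
    ∃ n, ExecLe B decBody (st [] [] [] [] (List.replicate m false ++ true :: z) [] [true]) n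
      (st [] [] [] [] (List.replicate (m + 1) false ++ true :: z) [] [true]) :=
  ⟨_, (push4 B _ _ _ _ _ _ _ true).seq ((push4 B _ _ _ _ _ _ _ true).seq
    ((push4 B _ _ _ _ _ _ _ true).seq ((push4 B _ _ _ _ _ _ _ true).seq
    (ask4_no h1 ((pop4 B _ _ _ _ _ _ _).seq ((pop4 B _ _ _ _ _ _ _).seq
    ((pop4 B _ _ _ _ _ _ _).seq ((pop4 B _ _ _ _ _ _ _).seq
    ((push4 B _ _ _ _ _ _ _ false).seq ((push4 B _ _ _ _ _ _ _ true).seq
    ((push4 B _ _ _ _ _ _ _ true).seq ((push4 B _ _ _ _ _ _ _ true).seq
    (ask4_no h0 ((pop4 B _ _ _ _ _ _ _).seq ((pop4 B _ _ _ _ _ _ _).seq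
    ((pop4 B _ _ _ _ _ _ _).seq ((pop4 B _ _ _ _ _ _ _).seq
    (push4 B _ _ _ _ _ _ _ false))))))))))))))))))⟩

theorem decBody_true (B : Set Str) (m : ℕ) (z : Str) (h1 : fr true m z ∈ B) :
    ∃ n, ExecLe B decBody (st [] [] [] [] (List.replicate m false ++ true :: z) [] [true]) n
      (st [] [] [] [true] (fr true m z) [] []) :=
  ⟨_, (push4 B _ _ _ _ _ _ _ true).seq ((push4 B _ _ _ _ _ _ _ true).seq
    ((push4 B _ _ _ _ _ _ _ true).seq ((push4 B _ _ _ _ _ _ _ true).seq
    (ask4_yes h1 ((push3 B _ _ _ _ _ _ _ true).seq (pop6 B _ _ _ _ _ _ _))))))⟩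

theorem decBody_false (B : Set Str) (m : ℕ) (z : Str) (h1 : fr true m z ∉ B)
    (h0 : fr false m z ∈ B) :
    ∃ n, ExecLe B decBody (st [] [] [] [] (List.replicate m false ++ true :: z) [] [true]) n
      (st [] [] [] [false] (fr false m z) [] []) :=
  ⟨_, (push4 B _ _ _ _ _ _ _ true).seq ((push4 B _ _ _ _ _ _ _ true).seq
    ((push4 B _ _ _ _ _ _ _ true).seq ((push4 B _ _ _ _ _ _ _ true).seq
    (ask4_no h1 ((pop4 B _ _ _ _ _ _ _).seq ((pop4 B _ _ _ _ _ _ _).seq
    ((pop4 B _ _ _ _ _ _ _).seq ((pop4 B _ _ _ _ _ _ _).seq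
    ((push4 B _ _ _ _ _ _ _ false).seq ((push4 B _ _ _ _ _ _ _ true).seq
    ((push4 B _ _ _ _ _ _ _ true).seq ((push4 B _ _ _ _ _ _ _ true).seq
    (ask4_yes h0 ((push3 B _ _ _ _ _ _ _ false).seq (pop6 B _ _ _ _ _ _ _)))))))))))))))⟩

theorem decLoop (B : Set Str) (z : Str) (b : Bool) (M : ℕ) (hb : fr b M z ∈ B)
    (hb' : fr (!b) M z ∉ B) (hlt : ∀ m < M, ∀ x, fr x m z ∉ B) (j m : ℕ) (hj : m + j = M) :
    ∃ n s', ExecLe B (Cmd.loop 6 decBody)
      (st [] [] [] [] (List.replicate m false ++ true :: z) [] [true]) n s' ∧ s' 3 = [b] := by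
  induction j generalizing m with
  | zero =>
    have hm : m = M := by omega
    subst hm
    cases b with
    | true =>
      obtain ⟨n, h⟩ := decBody_true B m z hb
      exact ⟨_, _, ExecLe.loop_step (by simp [st]) h (ExecLe.loop_nil rfl), rfl⟩
    | false =>
      obtain ⟨n, h⟩ := decBody_false B m z hb' hb
      exact ⟨_, _, ExecLe.loop_step (by simp [st]) h (ExecLe.loop_nil rfl), rfl⟩
  | succ j ih =>
    obtain ⟨n, h⟩ := decBody_next B m z (hlt m (by omega) true) (hlt m (by omega) false)
    obtain ⟨n', s', h', hs⟩ := ih (m + 1) (by omega)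
    exact ⟨_, s', ExecLe.loop_step (by simp [st]) h h', hs⟩

theorem decProg_no (B : Set Str) (z : Str) (h : mk z ∉ B) :
    ∃ n, out B decProg [] [] z n = some [false] := by
  have h1 := mv25 B [] [] [] [] [] z []
  have h2 := mv54 B [] [] [] [] [] [] z.reverse
  rw [List.append_nil] at h1
  simp only [List.reverse_reverse, List.append_nil, List.length_reverse] at h2
  have h3 : ∃ n, ExecLe B decProg (st [] [] z [] [] [] []) n
      (st [] [] [] [false] (mk z) [] []) := by
    unfold decProg
    exact ⟨_, h1.seq (h2.seq ((push4 B _ _ _ _ _ _ _ false).seq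
      (ask4_no h (push3 B _ _ _ _ _ _ _ false))))⟩
  obtain ⟨n, m, hm, h4⟩ := h3
  rw [← init_eq] at h4
  exact ⟨n, out_of_exec h4 hm⟩

theorem decProg_yes (B : Set Str) (z : Str) (h : mk z ∈ B) (b : Bool) (M : ℕ)
    (hb : fr b M z ∈ B) (hb' : fr (!b) M z ∉ B) (hlt : ∀ m < M, ∀ x, fr x m z ∉ B) :
    ∃ n, out B decProg [] [] z n = some [b] := by
  have h1 := mv25 B [] [] [] [] [] z []
  have h2 := mv54 B [] [] [] [] [] [] z.reverse
  rw [List.append_nil] at h1
  simp only [List.reverse_reverse, List.append_nil, List.length_reverse] at h2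
  obtain ⟨k, s', h5, h6⟩ := decLoop B z b M hb hb' hlt M 0 (by omega)
  have h3 : ∃ n, ExecLe B decProg (st [] [] z [] [] [] []) n s' := by
    unfold decProg
    exact ⟨_, h1.seq (h2.seq ((push4 B _ _ _ _ _ _ _ false).seq
      (ask4_yes h ((pop4 B _ _ _ _ _ _ _).seq ((push4 B _ _ _ _ _ _ _ true).seq
        ((push6 B _ _ _ _ _ _ _ true).seq h5))))))⟩
  obtain ⟨n, m, hm, h4⟩ := h3
  rw [← init_eq] at h4
  exact ⟨n, by rw [out_of_exec h4 hm, h6]⟩

end Pool.IC
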