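import Pool.Agent.Work.MP_af7a01_h91.Strings
import Pool.Agent.Work.MP_af7a01_h91.Growth

open Classical

namespace Pool.IC

/-- Data of one stage: length parameter, special strings, their common bit, witness, far length. -/
structure Stage where
  /-- the special strings have length `16 m` -/
  m : ℕ
  /-- the special strings -/
  S : Finset Str
  /-- the value of the set on the special strings -/
  b : Bool
  /-- the witness -/
  w : Str
  /-- the length where the decision procedure finds the bit -/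
  M : ℕ

/-- The oracle strings of stage `k`. -/
def newOr (k : ℕ) (σ : Stage) : Set Str :=
  {s | ∃ z ∈ σ.S, s = mk z ∨ s = ix k z ∨ s = wt σ.b σ.w z ∨ s = fr σ.b σ.M z}

/-- Bound for the lengths of the questions of stage `σ`. -/
def Stage.bound (σ : Stage) : ℕ := σ.M + 4 * (16 * σ.m) + 10

/-- The requirements for stage `k` with previous oracle `B`, all lengths up to `L` being
forbidden. -/
structure Good (U : Interpreter) (h : ℕ → ℕ) (e : ℕ) (N : Cmd) (k : ℕ)
    (B : Set Str) (L : ℕ) (σ : Stage) : Prop where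
  hm : 0 < σ.m
  hL : L < 16 * σ.m
  hk : k ≤ σ.m
  hh : ∀ j ≤ e + k + 1, h j + k < 2 * σ.m
  ne : σ.S.Nonempty
  len : ∀ z ∈ σ.S, z.length = 16 * σ.m
  wlen : σ.w.length = 16 * σ.m
  loc : ∀ B' : Set Str, (∀ s : Str, s.length ≤ σ.bound → (s ∈ B' ↔ s ∈ B ∪ newOr k σ)) →
    (∀ p : Str, p.length < 2 * σ.m → ∀ x ∈ σ.S,
      ¬ ∀ z ∈ σ.S, U.run B' p [] z (2 ^ σ.m) = some (chi {x} z)) ∧
    ∃ z ∈ σ.S, out B' N [] [] z (2 ^ σ.m) ≠ some [σ.b]

theorem exists_large (h : ℕ → ℕ) (e : ℕ) (k L : ℕ) :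
    ∃ m : ℕ, 2 ≤ m ∧ L < 16 * m ∧ k ≤ m ∧ ∀ j ≤ e + k + 1, h j + k < 2 * m := by
  refine ⟨2 + L + k + ∑ j ∈ Finset.range (e + k + 2), (h j + k), by omega, by omega, by omega,
    ?_⟩
  intro j hj
  have h3 : h j + k ≤ ∑ j ∈ Finset.range (e + k + 2), (h j + k) :=
    Finset.single_le_sum (f := fun j => h j + k) (fun _ _ => Nat.zero_le _)
      (Finset.mem_range.2 (by omega))
  omega

/-- The numerical conditions. -/
theorem numbers {m a : ℕ} (hm : 2 ≤ m) (ha : a + 1 ≤ 2 ^ (2 * m)) :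
    2 ^ (16 * m) * 2 ^ (3 * m) < (2 ^ (11 * m) + 1) * (2 ^ (8 * m) + 1) ∧
    (2 * a + 1) * (1 + 2 ^ (3 * m) + 2 ^ (8 * m)) + 2 ^ (11 * m) ≤ 2 ^ (12 * m) ∧
    a * 2 ^ (12 * m) + 2 ^ (12 * m) < 2 ^ (16 * m) ∧
    (2 * a + 1) * 2 ^ (3 * m) + 2 ^ m < 2 ^ (16 * m) ∧
    a * 2 ^ m ≤ 2 ^ (3 * m) := by
  obtain ⟨x, hx⟩ : ∃ x, x = 2 ^ m := ⟨_, rfl⟩
  have hx4 : 4 ≤ x := by
    rw [hx]
    calc 4 = 2 ^ 2 := rfl
      _ ≤ 2 ^ m := Nat.pow_le_pow_right (by norm_num) hm
  have hp : ∀ k, 2 ^ (k * m) = x ^ k := by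
    intro k
    rw [hx, ← pow_mul, Nat.mul_comm]
  rw [hp] at ha
  rw [hp, hp, hp, hp, hp, ← hx]
  have e1 : 1 ≤ x ^ 3 := Nat.one_le_pow _ _ (by omega)
  have e2 : x ^ 3 ≤ x ^ 8 := Nat.pow_le_pow_right (by omega) (by norm_num)
  refine ⟨?_, ?_, ?_, ?_, ?_⟩
  · have : x ^ 16 * x ^ 3 = x ^ 11 * x ^ 8 := by ring
    rw [this]
    nlinarith [Nat.zero_le (x ^ 11), Nat.zero_le (x ^ 8)]
  · have h1 : (2 * a + 1) * (1 + x ^ 3 + x ^ 8) ≤ (2 * x ^ 2) * (3 * x ^ 8) :=
      Nat.mul_le_mul (by omega) (by omega)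
    have h2 : 2 * x ^ 2 * (3 * x ^ 8) = 6 * x ^ 10 := by ring
    have h3 : 6 * x ^ 10 ≤ 2 * x ^ 11 := by
      have : x ^ 11 = x * x ^ 10 := by ring
      rw [this]
      nlinarith [Nat.zero_le (x ^ 10)]
    have h4 : 3 * x ^ 11 ≤ x ^ 12 := by
      have : x ^ 12 = x * x ^ 11 := by ring
      rw [this]
      nlinarith [Nat.zero_le (x ^ 11)]
    omega
  · have h1 : (a + 1) * x ^ 12 ≤ x ^ 2 * x ^ 12 := Nat.mul_le_mul_right _ ha
    have h2 : x ^ 2 * x ^ 12 < x ^ 16 := by
      have : x ^ 2 * x ^ 12 = x ^ 14 := by ring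
      rw [this]
      exact Nat.pow_lt_pow_right (by omega) (by norm_num)
    calc a * x ^ 12 + x ^ 12 = (a + 1) * x ^ 12 := by ring
      _ < x ^ 16 := h1.trans_lt h2
  · have h1 : (2 * a + 1) * x ^ 3 ≤ (2 * x ^ 2) * x ^ 3 := Nat.mul_le_mul_right _ (by omega)
    have h2 : 2 * x ^ 2 * x ^ 3 = 2 * x ^ 5 := by ring
    have h3 : x ≤ x ^ 5 := by
      calc x = x ^ 1 := (pow_one x).symm
        _ ≤ x ^ 5 := Nat.pow_le_pow_right (by omega) (by norm_num)
    have h4 : 3 * x ^ 5 < x ^ 6 := by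
      have : x ^ 6 = x * x ^ 5 := by ring
      rw [this]
      nlinarith [Nat.zero_le (x ^ 5), Nat.one_le_pow 5 x (by omega)]
    have h5 : x ^ 6 ≤ x ^ 16 := Nat.pow_le_pow_right (by omega) (by norm_num)
    omega
  · calc a * x ≤ x ^ 2 * x := Nat.mul_le_mul_right _ (by omega)
      _ = x ^ 3 := by ring

theorem exists_good (U : Interpreter) (h : ℕ → ℕ) (e : ℕ) (N : Cmd) (k : ℕ)
    (B : Set Str) (L : ℕ) : ∃ σ : Stage, Good U h e N k B L σ := by
  obtain ⟨m, hm2, hL, hk, hh⟩ := exists_large h e k L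
  set n := 16 * m with hn
  set P := short (2 * m) with hP
  have hPc : P.card + 1 ≤ 2 ^ (2 * m) := card_short _
  obtain ⟨num1, num2, num3, num4, num5⟩ := numbers hm2 hPc
  set V := strs n with hV
  have hVc : V.card = 2 ^ n := card_strs n
  -- the local oracles and the questions asked
  set lo : Str → Set Str := fun z => B ∪ {s | s = mk z ∨ s = ix k z} with hlo
  choose qr hqr1 hqr2 hqr3 using fun (z p : Str) => U.asks (lo z) p [] z (2 ^ m)
  set qs : Str → Finset Str := fun z => P.biUnion (qr z) with hqs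
  have hqsc : ∀ z, (qs z).card ≤ 2 ^ (3 * m) := fun z =>
    (Finset.card_biUnion_le_card_mul _ _ _ fun p _ => hqr1 z p).trans num5
  set Q : Str → Finset Str := fun z => (qs z).image (suf n) with hQ
  have hQc : ∀ z ∈ V, (Q z).card ≤ 2 ^ (3 * m) := fun z _ =>
    Finset.card_image_le.trans (hqsc z)
  set T : Str → Finset Str := fun p => V.filter fun z => U.run (lo z) p [] z (2 ^ m) = some [true]
    with hT
  obtain ⟨S, hSV, hSne, hSc, hSind, hSiso⟩ := comb V P T Q (2 ^ (3 * m)) (2 ^ (8 * m))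
    (2 ^ (11 * m)) (2 ^ (12 * m)) hQc (by rw [hVc]; exact num1) num2 (by rw [hVc]; exact num3)
    (fun p => Finset.filter_subset _ _)
  obtain ⟨z0, hz0⟩ := hSne
  have hSlen : ∀ z ∈ S, z.length = n := fun z hz => mem_strs.1 (hSV hz)
  -- the local oracle for the diagonalisation
  set loS : Set Str := B ∪ {s | ∃ z ∈ S, s = mk z ∨ s = ix k z} with hloS
  set qN := queries loS N [] [] z0 (2 ^ m) with hqN
  set QQ := S.biUnion qs ∪ qN with hQQ
  have hQQc : QQ.card < 2 ^ n := by
    have h1 : (S.biUnion qs).card ≤ S.card * 2 ^ (3 * m) :=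
      Finset.card_biUnion_le_card_mul _ _ _ fun z _ => hqsc z
    have h2 : qN.card ≤ 2 ^ m := card_queries _ _ _ _ _ _
    calc QQ.card ≤ (S.biUnion qs).card + qN.card := Finset.card_union_le _ _
      _ ≤ (2 * P.card + 1) * 2 ^ (3 * m) + 2 ^ m :=
          Nat.add_le_add (h1.trans (Nat.mul_le_mul_right _ hSc)) h2
      _ < 2 ^ n := num4
  -- the witness
  obtain ⟨dec, hdec⟩ : ∃ dec : Str → Str, ∀ b w z, dec (wt b w z) = w := by
    refine ⟨fun s => if hs : ∃ w, ∃ b z, s = wt b w z then hs.choose else [], ?_⟩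
    intro b w z
    have hs : ∃ w', ∃ b' z', wt b w z = wt b' w' z' := ⟨w, b, z, rfl⟩
    simp only [dif_pos hs]
    obtain ⟨b', z', h1⟩ := hs.choose_spec
    exact (wt_inj h1).2.1.symm
  obtain ⟨w, hwV, hwQ⟩ : ∃ w ∈ V, w ∉ QQ.image dec := by
    by_contra hcon
    push Not at hcon
    have h1 := (Finset.card_le_card hcon).trans Finset.card_image_le
    omega
  have hwlen : w.length = n := mem_strs.1 hwV
  have hw : ∀ s ∈ QQ, ∀ b z, s ≠ wt b w z := by
    rintro s hs b z rfl
    exact hwQ (Finset.mem_image.2 ⟨_, hs, hdec b w z⟩)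
  -- far length and bit
  set M := 2 * m + n + 2 ^ m + 1 with hM
  set b : Bool := !(decide (out loS N [] [] z0 (2 ^ m) = some [true])) with hb
  have hbne : out loS N [] [] z0 (2 ^ m) ≠ some [b] := by
    by_cases h1 : out loS N [] [] z0 (2 ^ m) = some [true]
    · rw [h1, hb, h1]
      simp
    · have : b = true := by
        rw [hb]
        simp [h1]
      rw [this]
      exact h1
  have hqlen : ∀ z ∈ S, ∀ p ∈ P, ∀ s ∈ qr z p, s.length < M := by
    intro z hz p hp s hs
    have h1 := hqr2 z p s hs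
    have h2 := mem_short.1 hp
    rw [List.length_nil, hSlen z hz] at h1
    omega
  have hqNlen : ∀ s ∈ qN, s.length < M := by
    intro s hs
    have h1 := length_queries hs
    rw [List.length_nil, hSlen z0 hz0] at h1
    omega
  have hfr : ∀ s : Str, s.length < M → ∀ b z, s ≠ fr b M z := by
    rintro s hs b z rfl
    rw [length_fr] at hs
    omega
  refine ⟨⟨m, S, b, w, M⟩, ?_⟩
  refine ⟨by show 0 < m; omega, hL, hk, hh, ⟨z0, hz0⟩, hSlen, hwlen, ?_⟩
  intro B' hB'
  have hB'' : ∀ s : Str, s.length < M → (s ∈ B' ↔ s ∈ B ∪ newOr k ⟨m, S, b, w, M⟩) := by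
    intro s hs
    refine hB' s ?_
    unfold Stage.bound
    show s.length ≤ M + 4 * (16 * m) + 10
    omega
  constructor
  · intro p hp x hx hall
    have hpP : p ∈ P := mem_short.2 hp
    refine hSiso p hpP ?_
    have hrun : ∀ z ∈ S, U.run B' p [] z (2 ^ m) = U.run (lo z) p [] z (2 ^ m) := by
      intro z hz
      refine (hqr3 z p B' ?_).symm
      intro s hs
      have hsq : s ∈ qs z := Finset.mem_biUnion.2 ⟨p, hpP, hs⟩
      have hsQQ : s ∈ QQ := Finset.mem_union_left _ (Finset.mem_biUnion.2 ⟨z, hz, hsq⟩)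
      have hsl : s.length < M := hqlen z hz p hpP s hs
      rw [hB'' s hsl]
      constructor
      · rintro (h1 | h1)
        · exact Or.inl h1
        · right
          rcases h1 with h1 | h1
          · exact ⟨z, hz, Or.inl h1⟩
          · exact ⟨z, hz, Or.inr (Or.inl h1)⟩
      · rintro (h1 | ⟨z', hz', h1⟩)
        · exact Or.inl h1
        · right
          have key : suf n s = z' → z = z' := by
            intro h2
            by_contra hne
            exact hSind z hz z' hz' hne (Finset.mem_image.2 ⟨s, hsq, h2⟩)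
          rcases h1 with h1 | h1 | h1 | h1
          · have := key (by rw [h1, ← hSlen z' hz', suf_mk])
            subst this
            exact Or.inl h1
          · have := key (by rw [h1, ← hSlen z' hz', suf_ix])
            subst this
            exact Or.inr h1
          · exact absurd h1 (hw s hsQQ _ _)
          · exact absurd h1 (hfr s hsl _ _)
    rw [Finset.card_eq_one]
    refine ⟨x, ?_⟩
    ext z
    rw [Finset.mem_inter, Finset.mem_singleton]
    constructor
    · rintro ⟨hz, hzT⟩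
      have h1 := (Finset.mem_filter.1 hzT).2
      have h2 := hall z hz
      have h2' : U.run B' p [] z (2 ^ m) = some (chi {x} z) := h2
      rw [hrun z hz, h1] at h2'
      simpa [chi] using h2'
    · rintro rfl
      refine ⟨hx, Finset.mem_filter.2 ⟨hSV hx, ?_⟩⟩
      have h2 : U.run B' p [] z (2 ^ m) = some (chi {z} z) := hall z hx
      rw [hrun z hx] at h2
      rw [h2]
      simp [chi]
  · refine ⟨z0, hz0, ?_⟩
    show out B' N [] [] z0 (2 ^ m) ≠ some [b]
    have h1 : out loS N [] [] z0 (2 ^ m) = out B' N [] [] z0 (2 ^ m) := by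
      refine out_congr le_rfl ?_
      intro s hs
      have hsQQ : s ∈ QQ := Finset.mem_union_right _ hs
      have hsl : s.length < M := hqNlen s hs
      rw [hB'' s hsl]
      constructor
      · rintro (h1 | ⟨z, hz, h1⟩)
        · exact Or.inl h1
        · right
          rcases h1 with h1 | h1
          · exact ⟨z, hz, Or.inl h1⟩
          · exact ⟨z, hz, Or.inr (Or.inl h1)⟩
      · rintro (h1 | ⟨z, hz, h1⟩)
        · exact Or.inl h1
        · right
          rcases h1 with h1 | h1 | h1 | h1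
          · exact ⟨z, hz, Or.inl h1⟩
          · exact ⟨z, hz, Or.inr h1⟩
          · exact absurd h1 (hw s hsQQ _ _)
          · exact absurd h1 (hfr s hsl _ _)
    rw [← h1]
    exact hbne

end Pool.IC
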