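import Pool.Agent.Work.OracleCmd_h91.Strings
import Pool.Agent.Work.MP_af7a01_h91.Progs
import Pool.Agent.Work.MP_af7a01_h91.Comb

open Classical

namespace Pool.IC

theorem mk_inj {z z' : Str} (h : mk z = mk z') : z = z' := by
  simpa [mk] using h

theorem ix_inj {k k' : ℕ} {z z' : Str} (h : ix k z = ix k' z') : k = k' ∧ z = z' := by
  unfold ix at h
  simp only [List.cons.injEq, true_and] at h
  exact rep_inj true k k' z z' h

theorem fr_inj {b b' : Bool} {m m' : ℕ} {z z' : Str} (h : fr b m z = fr b' m' z') :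
    b = b' ∧ m = m' ∧ z = z' := by
  unfold fr at h
  simp only [List.cons.injEq, true_and] at h
  exact ⟨h.1, rep_inj false m m' z z' h.2⟩

theorem mk_ne_ix {z z' : Str} {k : ℕ} : mk z ≠ ix k z' := by simp [mk, ix]
theorem mk_ne_wt {z z' w : Str} {b : Bool} : mk z ≠ wt b w z' := by simp [mk, wt]
theorem mk_ne_fr {z z' : Str} {b : Bool} {m : ℕ} : mk z ≠ fr b m z' := by simp [mk, fr]
theorem ix_ne_wt {z z' w : Str} {b : Bool} {k : ℕ} : ix k z ≠ wt b w z' := by simp [ix, wt]
theorem ix_ne_fr {z z' : Str} {b : Bool} {k m : ℕ} : ix k z ≠ fr b m z' := by simp [ix, fr]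
theorem wt_ne_fr {z z' w : Str} {b b' : Bool} {m : ℕ} : wt b w z ≠ fr b' m z' := by
  simp [wt, fr]

theorem length_mk (z : Str) : (mk z).length = z.length + 1 := by simp [mk]
theorem length_ix (k : ℕ) (z : Str) : (ix k z).length = z.length + k + 3 := by
  simp [ix]; ring
theorem length_fr (b : Bool) (m : ℕ) (z : Str) : (fr b m z).length = z.length + m + 5 := by
  simp [fr]; ring

theorem suf_mk (z : Str) : suf z.length (mk z) = z := suf_append [false] z

theorem suf_ix (k : ℕ) (z : Str) : suf z.length (ix k z) = z := by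
  have : ix k z = (true :: false :: (List.replicate k true ++ [false])) ++ z := by simp [ix]
  rw [this, suf_append]

end Pool.IC
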